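import Pool.Agent.H20.Im

open Pool.Agent.H20.Im

namespace Pool.Agent.Results.MP_1a49c3_al.NotSix

theorem result (K : Type) [Field K] [IsAlgClosed K] :
    ∃ (m d : ℕ) (p : FreeAlgebra K (Fin m)), 1 ≤ d ∧ Homog K d p ∧
      zcl K (image K p) ≠ {0} ∧ zcl K (image K p) ≠ scalars K ∧ zcl K (image K p) ≠ V3 K ∧
      zcl K (image K p) ≠ sl3 K ∧ zcl K (image K p) ≠ zcl K (V3K K) ∧
      zcl K (image K p) ≠ Set.univ := main K

end Pool.Agent.Results.MP_1a49c3_al.NotSix
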